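import Pool.Agent.Q240.CD.Stm

set_option autoImplicit false

/-!
# Gauss quadrature for a degenerate nonnegative functional (`S_Quad` of project CD)
-/

open Polynomial Finset

namespace Pool.Agent.Q195.CD

/-- null polynomials -/
def Nu (m : ℕ) (Q : ℝ[X] →ₗ[ℝ] ℝ) (P : ℝ[X]) : Prop :=
  P.natDegree ≤ m ∧ ∀ R : ℝ[X], R.natDegree ≤ m → Q (P * R) = 0

section
variable {m : ℕ} {Q : ℝ[X] →ₗ[ℝ] ℝ}

theorem Nu.sq {P : ℝ[X]} (h : Nu m Q P) : Q (P * P) = 0 := h.2 P h.1

theorem sq_add (P R : ℝ[X]) (t : ℝ) :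
    Q ((C t * P + R) * (C t * P + R)) = t ^ 2 * Q (P * P) + 2 * t * Q (P * R) + Q (R * R) := by
  have e : (C t * P + R) * (C t * P + R) = (t ^ 2) • (P * P) + (2 * t) • (P * R) + R * R := by
    rw [smul_eq_C_mul, smul_eq_C_mul, C_pow, C_mul, show (C (2 : ℝ)) = (2 : ℝ[X]) from rfl]
    ring
  rw [e, map_add, map_add, map_smul, map_smul]
  simp

theorem cs (hQ : ∀ P : ℝ[X], P.natDegree ≤ m → 0 ≤ Q (P * P)) {P : ℝ[X]} (hP : P.natDegree ≤ m)
    (h0 : Q (P * P) = 0) : Nu m Q P := by
  refine ⟨hP, fun R hR => ?_⟩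
  have key : ∀ t : ℝ, 0 ≤ 2 * t * Q (P * R) + Q (R * R) := by
    intro t
    have h := hQ (C t * P + R)
      ((natDegree_add_le _ _).trans (max_le ((natDegree_C_mul_le _ _).trans hP) hR))
    rw [sq_add, h0] at h
    linarith
  by_contra hne
  have h1 := key (-(Q (R * R) + 1) / (2 * Q (P * R)))
  have h2 : 2 * (-(Q (R * R) + 1) / (2 * Q (P * R))) * Q (P * R) = -(Q (R * R) + 1) := by
    field_simp
  rw [h2] at h1
  linarith

theorem Nu.zero : Nu m Q 0 := ⟨by simp, fun R _ => by simp⟩

theorem Nu.add {P P' : ℝ[X]} (h : Nu m Q P) (h' : Nu m Q P') : Nu m Q (P + P') :=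
  ⟨(natDegree_add_le _ _).trans (max_le h.1 h'.1), fun R hR => by
    rw [add_mul, map_add, h.2 R hR, h'.2 R hR, add_zero]⟩

theorem Nu.smul {P : ℝ[X]} (h : Nu m Q P) (c : ℝ) : Nu m Q (C c * P) :=
  ⟨(natDegree_C_mul_le _ _).trans h.1, fun R hR => by
    rw [mul_assoc, ← smul_eq_C_mul, map_smul, h.2 R hR, smul_zero]⟩

theorem Nu.mulX (hQ : ∀ P : ℝ[X], P.natDegree ≤ m → 0 ≤ Q (P * P)) {N : ℝ[X]} (h : Nu m Q N)
    (hd : N.natDegree + 2 ≤ m) : Nu m Q (X * N) := by
  have h1 : (X * N).natDegree ≤ N.natDegree + 1 := by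
    refine natDegree_mul_le.trans ?_
    rw [natDegree_X]; omega
  refine cs hQ (by omega) ?_
  have e : X * N * (X * N) = N * (X * (X * N)) := by ring
  rw [e]
  apply h.2
  refine natDegree_mul_le.trans ?_
  rw [natDegree_X]; omega

theorem Nu.mulXpow (hQ : ∀ P : ℝ[X], P.natDegree ≤ m → 0 ≤ Q (P * P)) {N : ℝ[X]} (h : Nu m Q N) :
    ∀ k : ℕ, k + N.natDegree + 1 ≤ m → Nu m Q (X ^ k * N) := by
  intro k
  induction k with
  | zero => intro _; simpa using h
  | succ k ih =>
    intro hk
    have h1 := ih (by omega)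
    have e : X ^ (k + 1) * N = X * (X ^ k * N) := by ring
    rw [e]
    refine h1.mulX hQ ?_
    have : (X ^ k * N).natDegree ≤ k + N.natDegree := by
      refine natDegree_mul_le.trans ?_
      rw [natDegree_X_pow]
    omega

theorem Nu.mul (hQ : ∀ P : ℝ[X], P.natDegree ≤ m → 0 ≤ Q (P * P)) {N : ℝ[X]} (h : Nu m Q N)
    (A : ℝ[X]) (hA : A.natDegree + N.natDegree + 1 ≤ m) : Nu m Q (A * N) := by
  rw [A.as_sum_range_C_mul_X_pow, sum_mul]
  refine Finset.sum_induction _ (Nu m Q) (fun a b ha hb => ha.add hb) Nu.zero ?_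
  intro i hi
  rw [mul_assoc]
  refine Nu.smul (h.mulXpow hQ i ?_) _
  have := mem_range.1 hi
  omega

end

theorem quad : Pool.Agent.Q240.CD.S_Quad := by
  classical
  intro m Q hQ hex
  -- a null polynomial of smallest degree
  have hex' : ∃ d : ℕ, ∃ E : ℝ[X], E ≠ 0 ∧ E.natDegree = d ∧ Nu m Q E := by
    obtain ⟨P, h1, h2, h3⟩ := hex
    exact ⟨_, P, h1, rfl, cs hQ h2 h3⟩
  obtain ⟨E, hE0, hEd, hE⟩ := Nat.find_spec hex'
  have hmin : ∀ R : ℝ[X], R ≠ 0 → Nu m Q R → E.natDegree ≤ R.natDegree := by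
    intro R h1 h2
    rw [hEd]
    exact Nat.find_min' hex' ⟨R, h1, rfl, h2⟩
  -- no double real zero
  have hdouble : ∀ (c : ℝ) (T : ℝ[X]), E ≠ (X - C c) ^ 2 * T := by
    intro c T hT
    have hT0 : T ≠ 0 := by rintro rfl; simp at hT; exact hE0 hT
    have hX : (X - C c) ≠ (0 : ℝ[X]) := X_sub_C_ne_zero c
    have d1 : E.natDegree = 2 + T.natDegree := by
      rw [hT, natDegree_mul (pow_ne_zero _ hX) hT0, natDegree_pow, natDegree_X_sub_C]
    have d2 : ((X - C c) * T).natDegree = 1 + T.natDegree := by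
      rw [natDegree_mul hX hT0, natDegree_X_sub_C]
    have hEm := hE.1
    have h1 : Nu m Q ((X - C c) * T) := by
      refine cs hQ (by omega) ?_
      have e : (X - C c) * T * ((X - C c) * T) = E * T := by rw [hT]; ring
      rw [e]
      exact hE.2 T (by omega)
    have := hmin _ (mul_ne_zero hX hT0) h1
    omega
  -- no non-real zero
  have hcomplex : ∀ z : ℂ, aeval z E = 0 → z.im = 0 := by
    intro z hz
    by_contra him
    obtain ⟨T, hT⟩ := Polynomial.quadratic_dvd_of_aeval_eq_zero_im_ne_zero E hz him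
    have hT0 : T ≠ 0 := by rintro rfl; simp at hT; exact hE0 hT
    set q : ℝ[X] := X ^ 2 - C (2 * z.re) * X + C (‖z‖ ^ 2) with hq
    have hqd : q.natDegree = 2 := by
      rw [hq]; compute_degree!
    have hq0 : q ≠ 0 := by rintro h; rw [h] at hqd; simp at hqd
    have d1 : E.natDegree = 2 + T.natDegree := by
      rw [hT, natDegree_mul hq0 hT0, hqd]
    have hEm := hE.1
    have hn : ‖z‖ ^ 2 = z.re ^ 2 + z.im ^ 2 := by
      rw [Complex.sq_norm, Complex.normSq_apply]; ring
    have d2 : ((X - C z.re) * T).natDegree = 1 + T.natDegree := by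
      rw [natDegree_mul (X_sub_C_ne_zero _) hT0, natDegree_X_sub_C]
    have d3 : (C z.im * T).natDegree ≤ T.natDegree := natDegree_C_mul_le _ _
    have e : ((X - C z.re) * T) * ((X - C z.re) * T) + (C z.im * T) * (C z.im * T) = E * T := by
      rw [hT, hq, hn]
      simp only [C_add, C_pow, C_mul, show (C (2 : ℝ)) = (2 : ℝ[X]) from rfl]
      ring
    have h1 : Q (((X - C z.re) * T) * ((X - C z.re) * T)) + Q ((C z.im * T) * (C z.im * T)) = 0 := by
      rw [← map_add, e]
      exact hE.2 T (by omega)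
    have h2 := hQ ((X - C z.re) * T) (by omega)
    have h3 := hQ (C z.im * T) (by omega)
    have h4 : Q ((C z.im * T) * (C z.im * T)) = 0 := by linarith
    have h5 := cs hQ (by omega) h4
    have hC : C z.im ≠ (0 : ℝ[X]) := C_ne_zero.2 him
    have := hmin _ (mul_ne_zero hC hT0) h5
    omega
  -- the zeros
  set Z : Finset ℝ := E.roots.toFinset with hZ
  have hmemZ : ∀ x : ℝ, x ∈ Z ↔ E.eval x = 0 := by
    intro x
    rw [hZ, Multiset.mem_toFinset, mem_roots hE0, IsRoot.def]
  have hnodup : E.roots.Nodup := by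
    rw [Multiset.nodup_iff_count_le_one]
    intro c
    by_contra hc
    rw [count_roots] at hc
    have h2 : (X - C c) ^ 2 ∣ E :=
      (pow_dvd_pow _ (by omega)).trans (pow_rootMultiplicity_dvd E c)
    obtain ⟨T, hT⟩ := h2
    exact hdouble c T hT
  set N : ℝ[X] := Lagrange.nodal Z id with hN
  have hNprod : N = (E.roots.map fun a => X - C a).prod := by
    rw [hN, Lagrange.nodal, Finset.prod, hZ, Multiset.toFinset_val, Multiset.dedup_eq_self.2 hnodup]
    rfl
  have hNd : N.natDegree = Z.card := Lagrange.natDegree_nodal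
  have hNm : N.Monic := Lagrange.nodal_monic
  obtain ⟨F, hF⟩ : N ∣ E := hNprod ▸ prod_multiset_X_sub_C_dvd E
  have hF0 : F ≠ 0 := by rintro rfl; simp at hF; exact hE0 hF
  have hFd : F.natDegree = 0 := by
    by_contra hne
    have hpos : 0 < (F.map (algebraMap ℝ ℂ)).degree := by
      rw [degree_map]
      exact natDegree_pos_iff_degree_pos.1 (Nat.pos_of_ne_zero hne)
    obtain ⟨z, hz⟩ := Complex.exists_root hpos
    have hz1 : aeval z F = 0 := by
      rwa [IsRoot.def, eval_map_algebraMap] at hz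
    have hz2 : aeval z E = 0 := by rw [hF, map_mul, hz1, mul_zero]
    have him := hcomplex z hz2
    have hzr : z = ((z.re : ℝ) : ℂ) := by
      apply Complex.ext <;> simp [him]
    have hF1 : F.eval z.re = 0 := by
      rw [hzr] at hz1
      have h : aeval ((z.re : ℝ) : ℂ) F = ((F.eval z.re : ℝ) : ℂ) := by
        rw [show ((z.re : ℝ) : ℂ) = algebraMap ℝ ℂ z.re from rfl, aeval_algebraMap_apply,
          coe_aeval_eq_eval]
        rfl
      rw [h] at hz1
      exact_mod_cast hz1
    have hE1 : E.eval z.re = 0 := by rw [hF, eval_mul, hF1, mul_zero]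
    have hmem := (hmemZ z.re).2 hE1
    have hN1 : (X - C z.re) ∣ N := by
      rw [hN]
      exact Finset.dvd_prod_of_mem (fun i => X - C (id i)) hmem
    obtain ⟨a, ha⟩ := hN1
    obtain ⟨b, hb⟩ := dvd_iff_isRoot.2 (show F.IsRoot z.re from hF1)
    exact hdouble z.re (a * b) (by rw [hF, ha, hb]; ring)
  obtain ⟨A, hA⟩ : ∃ A : ℝ, F = C A := ⟨F.coeff 0, eq_C_of_natDegree_eq_zero hFd⟩
  have hA0 : A ≠ 0 := by rintro rfl; simp at hA; exact hF0 hA
  have hNe : N = C A⁻¹ * E := by
    rw [hF, hA, mul_comm N, ← mul_assoc, ← C_mul, inv_mul_cancel₀ hA0, C_1, one_mul]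
  have hNn : Nu m Q N := by rw [hNe]; exact hE.smul _
  have hEN : E.natDegree = Z.card := by
    rw [hF, hA, natDegree_mul_C hA0, hNd]
  have hZm : Z.card ≤ m := hNd ▸ hNn.1
  -- the Lagrange basis
  set B : ℝ → ℝ[X] := fun z => Lagrange.basis Z id z with hB
  have hinj : Set.InjOn (id : ℝ → ℝ) Z := Function.injective_id.injOn
  have hBd : ∀ z ∈ Z, (B z).natDegree = Z.card - 1 := fun z hz => by
    have := Lagrange.degree_basis hinj hz
    exact natDegree_eq_of_degree_eq_some this
  have hBne : ∀ z ∈ Z, B z ≠ 0 := fun z hz => Lagrange.basis_ne_zero hinj hz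
  have hBpos : ∀ z ∈ Z, 0 < Q (B z * B z) := by
    intro z hz
    have hc : 0 < Z.card := Finset.card_pos.2 ⟨z, hz⟩
    have hle : (B z).natDegree ≤ m := by rw [hBd z hz]; omega
    refine lt_of_le_of_ne (hQ _ hle) fun h => ?_
    have := hmin _ (hBne z hz) (cs hQ hle h.symm)
    rw [hBd z hz, hEN] at this
    omega
  have hBorth : ∀ z ∈ Z, ∀ z' ∈ Z, z ≠ z' → Q (B z * B z') = 0 := by
    intro z hz z' hz' hne
    have hdvd : N ∣ B z * B z' := by
      rw [hNprod, Multiset.prod_X_sub_C_dvd_iff_le_roots (mul_ne_zero (hBne z hz) (hBne z' hz')),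
        Multiset.le_iff_subset hnodup]
      intro y hy
      have hyZ : y ∈ Z := by rw [hZ, Multiset.mem_toFinset]; exact hy
      rw [mem_roots (mul_ne_zero (hBne z hz) (hBne z' hz')), IsRoot.def, eval_mul]
      by_cases hyz : y = z
      · have : (B z').eval y = 0 := Lagrange.eval_basis_of_ne (v := id) (by rw [hyz]; exact hne.symm) hyZ
        rw [this, mul_zero]
      · have : (B z).eval y = 0 := Lagrange.eval_basis_of_ne (v := id) (Ne.symm hyz) hyZ
        rw [this, zero_mul]
    obtain ⟨T, hT⟩ := hdvd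
    have hT0 : T ≠ 0 := by
      rintro rfl
      rw [mul_zero] at hT
      exact mul_ne_zero (hBne z hz) (hBne z' hz') hT
    have hdeg : (Z.card - 1) + (Z.card - 1) = Z.card + T.natDegree := by
      rw [← hNd, ← natDegree_mul hNm.ne_zero hT0, ← hT, natDegree_mul (hBne z hz) (hBne z' hz'),
        hBd z hz, hBd z' hz', hNd]
    rw [hT]
    exact hNn.2 T (by omega)
  -- the quadrature formula
  have hform : ∀ P : ℝ[X], P.natDegree + 1 ≤ m → Q (P * P) = ∑ z ∈ Z, Q (B z * B z) * P.eval z ^ 2 := by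
    intro P hP
    set R := P %ₘ N with hR
    set D := P /ₘ N with hD
    have hPe : P = D * N + R := by
      rw [hR, hD]
      rw [add_comm, mul_comm]
      exact (modByMonic_add_div P N).symm
    have hDn : Nu m Q (D * N) := by
      by_cases hlt : P.natDegree < N.natDegree
      · have : D = 0 := by
          rw [hD, divByMonic_eq_zero_iff hNm]
          exact degree_lt_degree hlt
        rw [this, zero_mul]
        exact Nu.zero
      · refine hNn.mul hQ D ?_
        rw [hD, natDegree_divByMonic P hNm]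
        omega
    have hRdeg : R.degree < Z.card := by
      have := degree_modByMonic_lt P hNm
      rwa [hN, Lagrange.degree_nodal] at this
    have hRm : R.natDegree ≤ m := by
      have : R.natDegree ≤ Z.card := by
        rcases eq_or_ne R 0 with h | h
        · rw [h]; simp
        · exact ((natDegree_lt_iff_degree_lt h).2 hRdeg).le
      omega
    have h1 : Q (P * P) = Q (R * R) := by
      have e := sq_add (Q := Q) (D * N) R 1
      rw [C_1, one_mul, ← hPe, hDn.sq, hDn.2 R hRm] at e
      rw [e]; ring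
    have h2 : ∀ z ∈ Z, P.eval z = R.eval z := by
      intro z hz
      have : N.eval z = 0 := Lagrange.eval_nodal_at_node (v := id) hz
      rw [hPe, eval_add, eval_mul, this, mul_zero, zero_add]
    have h3 : R = ∑ z ∈ Z, C (R.eval z) * B z := by
      have := Lagrange.eq_interpolate hinj hRdeg
      rw [Lagrange.interpolate_apply] at this
      exact this
    rw [h1]
    conv_lhs => rw [h3]
    rw [Finset.sum_mul_sum, map_sum]
    refine Finset.sum_congr rfl fun z hz => ?_
    rw [map_sum, Finset.sum_eq_single z]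
    · rw [h2 z hz]
      have e : C (R.eval z) * B z * (C (R.eval z) * B z) = (R.eval z ^ 2) • (B z * B z) := by
        rw [smul_eq_C_mul, C_pow]; ring
      rw [e, map_smul, smul_eq_mul, mul_comm]
    · intro y hy hyz
      have e : C (R.eval z) * B z * (C (R.eval y) * B y) = (R.eval z * R.eval y) • (B z * B y) := by
        rw [smul_eq_C_mul, C_mul]; ring
      rw [e, map_smul, hBorth z hz y hy (Ne.symm hyz), smul_zero]
    · intro h; exact absurd hz h
  -- vanishing in degree below `m`
  have hvan : ∀ P : ℝ[X], P.natDegree + 1 ≤ m → Q (P * P) = 0 → ∀ z ∈ Z, P.eval z = 0 := by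
    intro P hP h0 z hz
    rw [hform P hP] at h0
    have h1 := (Finset.sum_eq_zero_iff_of_nonneg fun y hy =>
      mul_nonneg (hBpos y hy).le (sq_nonneg (P.eval y))).1 h0 z hz
    rcases mul_eq_zero.1 h1 with h | h
    · exact absurd h (hBpos z hz).ne'
    · exact pow_eq_zero_iff (two_ne_zero) |>.1 h
  refine ⟨Z, fun z => if z ∈ Z then Q (B z * B z) else 0, ?_, ?_, ?_⟩
  · intro z
    by_cases h : z ∈ Z
    · simp only [h, if_true]; exact (hBpos z h).le
    · simp only [h, if_false]; exact le_rfl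
  · intro P hP
    rw [hform P hP]
    refine Finset.sum_congr rfl fun z hz => ?_
    simp only [hz, if_true]
  · intro P hP h0 z hz
    have hc : 0 < Z.card := Finset.card_pos.2 ⟨z, hz⟩
    -- the polynomial of degree `m` orthogonal to all of smaller degree
    set M : ℝ[X] := X ^ (m - Z.card) * N with hM
    have hMd : M.natDegree = m := by
      rw [hM, natDegree_mul (pow_ne_zero _ X_ne_zero) hNm.ne_zero, natDegree_X_pow, hNd]
      omega
    have hMm : M.Monic := (monic_X_pow _).mul hNm
    have hMo : ∀ R : ℝ[X], R.natDegree + 1 ≤ m → Q (M * R) = 0 := by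
      intro R hR
      rcases Nat.lt_or_ge Z.card m with hlt | hge
      · have e : M * R = (X ^ (m - Z.card - 1) * N) * (X * R) := by
          have : m - Z.card = (m - Z.card - 1) + 1 := by omega
          rw [hM, this, pow_succ]
          simp only [Nat.add_sub_cancel]
          ring
        rw [e]
        refine (hNn.mulXpow hQ (m - Z.card - 1) (by omega)).2 _ ?_
        refine natDegree_mul_le.trans ?_
        rw [natDegree_X]; omega
      · have : m - Z.card = 0 := by omega
        rw [hM, this, pow_zero, one_mul]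
        exact hNn.2 R (by omega)
    set c := P.coeff m with hcc
    set R := P - C c * M with hR
    have hRd : R.natDegree + 1 ≤ m := by
      have h1 : R.natDegree ≤ m := by
        refine (natDegree_sub_le _ _).trans (max_le hP ?_)
        exact (natDegree_C_mul_le _ _).trans hMd.le
      have h2 : R.coeff m = 0 := by
        have h3 : M.coeff m = 1 := by
          have := hMm.coeff_natDegree
          rwa [hMd] at this
        rw [hR, coeff_sub, coeff_C_mul, h3, hcc]; ring
      rcases h1.lt_or_eq with h | h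
      · exact h
      · exfalso
        rw [← h] at h2
        have hR0 : R = 0 := leadingCoeff_eq_zero.1 h2
        rw [hR0] at h
        simp at h
        omega
    have hPe : P = C c * M + R := by rw [hR]; ring
    have e := sq_add (Q := Q) M R c
    rw [← hPe, h0, hMo R hRd] at e
    have h1 := hQ M hMd.le
    have h2 := hQ R (by omega)
    have h3 : Q (R * R) = 0 := by
      have : 0 ≤ c ^ 2 * Q (M * M) := mul_nonneg (sq_nonneg c) h1
      linarith
    have h4 := hvan R hRd h3 z hz
    have h5 : N.eval z = 0 := Lagrange.eval_nodal_at_node (v := id) hz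
    rw [hPe, eval_add, h4, hM, eval_mul, eval_mul, h5]
    ring

end Pool.Agent.Q195.CD
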